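import Pool.Agent.Q320.PC.Class

/-!
# MP_2e9bdd_an, Q1: the lattice packing-covering constant of `C(K)`

`γ*(C(K)) = 1` for every nonempty compact metrizable space `K` (the restricted form of Q1), and
more generally for every nonempty compact Hausdorff space `K` in which every nonempty closed
subset has a nonempty relatively open part that is metrizable or totally disconnected.
-/

namespace Pool.Agent.Results.MP_2e9bdd_an.MetrizablePieces

open Q320.PC

universe u

theorem result :
    (∀ (K : Type u) [TopologicalSpace K] [CompactSpace K] [TopologicalSpace.MetrizableSpace K]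
      [Nonempty K], gammaStar C(K, ℝ) = 1) ∧
    (∀ (K : Type u) [TopologicalSpace K] [CompactSpace K] [T2Space K] [Nonempty K],
      PiecewiseTame K → gammaStar C(K, ℝ) = 1) := by
  constructor
  · intro K _ _ _ _
    refine gammaStar_eq_one ?_
    intro F _ hF
    refine ⟨Set.univ, isOpen_univ, ?_, Or.inl inferInstance⟩
    rwa [Set.inter_univ]
  · intro K _ _ _ _ hK
    exact gammaStar_eq_one hK

end Pool.Agent.Results.MP_2e9bdd_an.MetrizablePieces
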